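import Mathlib
import Pool.Agent.Work.MP_c51d14_co.Basic

/-!
# Blocks DIAMOND and BETWEEN (helper51)
-/

namespace Pool.Agent.TP

open Finset

section

variable {ι E : Type} [Fintype ι] [AddCommGroup E] [Module ℝ E]

/-- `t` is the lowest height `w / ψ` on `G \ F` -/
def Low (v : ι → E) (F G : Finset ι) (ψ w : Module.Dual ℝ E) (t : ℝ) : Prop :=
  (∀ i ∈ G, t * ψ (v i) ≤ w (v i)) ∧ ∃ i ∈ G, i ∉ F ∧ w (v i) = t * ψ (v i)

theorem exists_low {v : ι → E} {F G : Finset ι} {ψ w : Module.Dual ℝ E}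
    (hψ : ∀ i, 0 ≤ ψ (v i)) (hψF : ∀ i, i ∈ F ↔ ψ (v i) = 0) (hw : ∀ i ∈ F, w (v i) = 0)
    (hne : ∃ i ∈ G, i ∉ F) : ∃ t, Low v F G ψ w t := by
  classical
  obtain ⟨i0, hi0, hi0F⟩ := hne
  have hne' : (G \ F).Nonempty := ⟨i0, Finset.mem_sdiff.2 ⟨hi0, hi0F⟩⟩
  obtain ⟨i, hi, hmin⟩ := Finset.exists_min_image (G \ F) (fun i => w (v i) / ψ (v i)) hne'
  have hpos : ∀ j, j ∉ F → 0 < ψ (v j) := fun j hj =>
    lt_of_le_of_ne (hψ j) fun h => hj ((hψF j).2 h.symm)
  rw [Finset.mem_sdiff] at hi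
  refine ⟨w (v i) / ψ (v i), fun j hj => ?_, i, hi.1, hi.2, ?_⟩
  · by_cases hjF : j ∈ F
    · rw [(hψF j).1 hjF, hw j hjF, mul_zero]
    · have h1 := hmin j (Finset.mem_sdiff.2 ⟨hj, hjF⟩)
      rwa [le_div_iff₀ (hpos j hjF)] at h1
  · rw [div_mul_cancel₀ _ (hpos i hi.2).ne']

open scoped Classical in
theorem Low.isFace {v : ι → E} {F G : Finset ι} {ψ w : Module.Dual ℝ E} {t : ℝ}
    (hG : IsFace v G) (h : Low v F G ψ w t) :
    IsFace v (G.filter fun i => w (v i) = t * ψ (v i)) := by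
  have h1 := hG.rel (w - t • ψ) (fun i hi => by
    have := h.1 i hi
    simp only [LinearMap.sub_apply, LinearMap.smul_apply, smul_eq_mul]
    linarith)
  have h2 : (G.filter fun i => (w - t • ψ) (v i) = 0)
      = G.filter fun i => w (v i) = t * ψ (v i) := by
    refine Finset.filter_congr fun i _ => ?_
    simp only [LinearMap.sub_apply, LinearMap.smul_apply, smul_eq_mul]
    exact sub_eq_zero
  rw [h2] at h1
  exact h1

open scoped Classical in
/-- if the heights are not constant, the lowest face is strictly between -/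
theorem Low.ssubset {v : ι → E} {F G : Finset ι} {ψ w : Module.Dual ℝ E} {t : ℝ}
    (hψF : ∀ i, i ∈ F ↔ ψ (v i) = 0) (hw : ∀ i ∈ F, w (v i) = 0) (hFG : F ⊆ G)
    (h : Low v F G ψ w t) (hc : ∃ i ∈ G, w (v i) ≠ t * ψ (v i)) :
    F ⊂ (G.filter fun i => w (v i) = t * ψ (v i)) ∧
      (G.filter fun i => w (v i) = t * ψ (v i)) ⊂ G := by
  constructor
  · refine Finset.ssubset_iff_subset_ne.2 ⟨fun i hi => Finset.mem_filter.2 ⟨hFG hi, ?_⟩, ?_⟩
    · rw [hw i hi, (hψF i).1 hi, mul_zero]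
    · intro he
      obtain ⟨i, hi, hiF, hi2⟩ := h.2
      exact hiF (he ▸ Finset.mem_filter.2 ⟨hi, hi2⟩)
  · refine Finset.ssubset_iff_subset_ne.2 ⟨Finset.filter_subset _ _, ?_⟩
    intro he
    obtain ⟨i, hi, hi2⟩ := hc
    rw [← he, Finset.mem_filter] at hi
    exact hi2 hi.2

open scoped Classical in
/-- a face whose functional is `α ψ + β w` on `G`, `β > 0`, is the lowest face -/
theorem Low.eq_of_pos {v : ι → E} {F G H : Finset ι} {ψ w φ : Module.Dual ℝ E} {t α β : ℝ}
    (hψ : ∀ i, 0 ≤ ψ (v i)) (hψF : ∀ i, i ∈ F ↔ ψ (v i) = 0)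
    (h : Low v F G ψ w t) (hφ : ∀ i, 0 ≤ φ (v i)) (hφH : ∀ i, i ∈ H ↔ φ (v i) = 0)
    (hHG : H ⊆ G) (hne : ∃ i ∈ H, i ∉ F) (hβ : 0 < β)
    (hrep : ∀ i ∈ G, φ (v i) = α * ψ (v i) + β * w (v i)) :
    H = G.filter fun i => w (v i) = t * ψ (v i) := by
  have hpos : ∀ j, j ∉ F → 0 < ψ (v j) := fun j hj =>
    lt_of_le_of_ne (hψ j) fun h => hj ((hψF j).2 h.symm)
  have ht : α = - (β * t) := by
    apply le_antisymm
    · -- from an element of H outside F
      obtain ⟨i, hi, hiF⟩ := hne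
      have h1 := hrep i (hHG hi)
      rw [(hφH i).1 hi] at h1
      have h2 := h.1 i (hHG hi)
      have h3 := hpos i hiF
      have h4 : β * (t * ψ (v i)) ≤ β * w (v i) := mul_le_mul_of_nonneg_left h2 hβ.le
      have h5 : (α + β * t) * ψ (v i) ≤ 0 := by nlinarith
      have h6 : α + β * t ≤ 0 := by
        by_contra hc
        push Not at hc
        have := mul_pos hc h3
        linarith
      linarith
    · obtain ⟨i, hi, hiF, hi2⟩ := h.2
      have h1 := hrep i hi
      have h2 := hφ i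
      have h3 := hpos i hiF
      rw [h1, hi2] at h2
      have h5 : 0 ≤ (α + β * t) * ψ (v i) := by nlinarith
      have h6 : 0 ≤ α + β * t := by
        by_contra hc
        push Not at hc
        have := mul_neg_of_neg_of_pos hc h3
        linarith
      linarith
  ext i
  rw [Finset.mem_filter]
  constructor
  · intro hi
    refine ⟨hHG hi, ?_⟩
    have h1 := hrep i (hHG hi)
    rw [(hφH i).1 hi, ht] at h1
    have h2 : β * (w (v i) - t * ψ (v i)) = 0 := by linarith
    rcases mul_eq_zero.1 h2 with h3 | h3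
    · exact absurd h3 hβ.ne'
    · linarith
  · rintro ⟨hi, hi2⟩
    rw [hφH, hrep i hi, ht, hi2]
    ring

variable [FiniteDimensional ℝ E]

/-- a direction in the span of `G` and the kernel of `ψ`, and a functional which sees it -/
theorem exists_transversal {v : ι → E} {F G : Finset ι} {ψ : Module.Dual ℝ E}
    (hr : rk v (F : Set ι) + 2 ≤ rk v (G : Set ι)) :
    ∃ (w : Module.Dual ℝ E) (x : E), x ∈ Submodule.span ℝ (v '' (G : Set ι)) ∧ ψ x = 0 ∧
      x ∉ Submodule.span ℝ (v '' (F : Set ι)) ∧ w x ≠ 0 ∧ ∀ i ∈ F, w (v i) = 0 := by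
  set A := Submodule.span ℝ (v '' (F : Set ι)) with hA
  set B := Submodule.span ℝ (v '' (G : Set ι)) with hB
  have h1 : ¬ B ⊓ LinearMap.ker ψ ≤ A := by
    intro hle
    have h2 : Module.finrank ℝ ↥(B ⊓ LinearMap.ker ψ) ≤ rk v (F : Set ι) :=
      Submodule.finrank_mono hle
    have h3 := Submodule.finrank_sup_add_finrank_inf_eq B (LinearMap.ker ψ)
    have h4 : Module.finrank ℝ ↥(B ⊔ LinearMap.ker ψ) ≤ Module.finrank ℝ E :=
      Submodule.finrank_le _
    have h5 := LinearMap.finrank_range_add_finrank_ker ψ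
    have h6 : Module.finrank ℝ ↥(LinearMap.range ψ) ≤ 1 := by
      have := Submodule.finrank_le (LinearMap.range ψ)
      rwa [Module.finrank_self] at this
    have h7 : Module.finrank ℝ ↥B = rk v (G : Set ι) := rfl
    omega
  obtain ⟨x, hx, hxA⟩ := SetLike.not_le_iff_exists.1 h1
  obtain ⟨w, hw, hwA⟩ := Submodule.exists_le_ker_of_notMem hxA
  refine ⟨w, x, hx.1, hx.2, hxA, hw, fun i hi => ?_⟩
  exact hwA (Submodule.subset_span ⟨i, hi, rfl⟩)

/-- no multiple of `ψ` agrees with `w` on `G` -/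
theorem nonconst_of_transversal {v : ι → E} {G : Finset ι} {ψ w : Module.Dual ℝ E} {x : E}
    (hx : x ∈ Submodule.span ℝ (v '' (G : Set ι))) (hψ : ψ x = 0) (hw : w x ≠ 0) (t : ℝ) :
    ∃ i ∈ G, w (v i) ≠ t * ψ (v i) := by
  by_contra hc
  push Not at hc
  have h := dual_zero_of_span (v := v) (S := (G : Set ι)) (ψ := w - t • ψ) (fun i hi => by
    simp only [LinearMap.sub_apply, LinearMap.smul_apply, smul_eq_mul]
    rw [hc i hi, sub_self]) hx
  simp only [LinearMap.sub_apply, LinearMap.smul_apply, smul_eq_mul, hψ, mul_zero, sub_zero] at h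
  exact hw h

open scoped Classical in
/-- a face strictly between two faces whose ranks differ by at least two -/
theorem exists_face_between {v : ι → E} {F G : Finset ι} (hF : IsFace v F) (hG : IsFace v G)
    (hFG : F ⊆ G) (hr : rk v (F : Set ι) + 2 ≤ rk v (G : Set ι)) :
    ∃ H : Finset ι, IsFace v H ∧ F ⊂ H ∧ H ⊂ G := by
  obtain ⟨ψ, hψ, hψF⟩ := hF
  obtain ⟨w, x, hx, hψx, hxA, hwx, hw⟩ := exists_transversal (ψ := ψ) hr
  have hne : ∃ i ∈ G, i ∉ F := by
    by_contra hc
    push Not at hc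
    have : F = G := Finset.Subset.antisymm hFG hc
    rw [this] at hr
    omega
  obtain ⟨t, ht⟩ := exists_low hψ hψF hw hne
  have h1 := ht.ssubset hψF hw hFG (nonconst_of_transversal hx hψx hwx t)
  exact ⟨_, ht.isFace hG, h1.1, h1.2⟩

/-- functionals on the span of `G` vanishing on `F` are spanned by `ψ` and `w` -/
theorem rep_of_transversal {v : ι → E} {F G : Finset ι} {ψ w φ : Module.Dual ℝ E} {x : E}
    (hFG : F ⊆ G) (hr : rk v (G : Set ι) = rk v (F : Set ι) + 2)
    (hψF : ∀ i, i ∈ F ↔ ψ (v i) = 0) (hw : ∀ i ∈ F, w (v i) = 0) (hφ : ∀ i ∈ F, φ (v i) = 0)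
    (hne : ∃ i ∈ G, i ∉ F) (hx : x ∈ Submodule.span ℝ (v '' (G : Set ι))) (hψx : ψ x = 0)
    (hxA : x ∉ Submodule.span ℝ (v '' (F : Set ι))) (hwx : w x ≠ 0) :
    ∃ α β : ℝ, ∀ i ∈ G, φ (v i) = α * ψ (v i) + β * w (v i) := by
  set A := Submodule.span ℝ (v '' (F : Set ι)) with hA
  set B := Submodule.span ℝ (v '' (G : Set ι)) with hB
  obtain ⟨j, hj, hjF⟩ := hne
  have hψj : ψ (v j) ≠ 0 := fun h => hjF ((hψF j).2 h)
  have hAB : A ≤ B := Submodule.span_mono (Set.image_mono (Finset.coe_subset.2 hFG))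
  have h1 : A < A ⊔ Submodule.span ℝ {x} := by
    refine lt_of_le_of_ne le_sup_left fun h => hxA ?_
    rw [h]
    exact Submodule.mem_sup_right (Submodule.mem_span_singleton_self x)
  have hAk : A ≤ LinearMap.ker ψ := by
    rw [hA, Submodule.span_le]
    rintro _ ⟨i, hi, rfl⟩
    exact (hψF i).1 hi
  have h2 : A ⊔ Submodule.span ℝ {x} ≤ LinearMap.ker ψ := by
    refine sup_le hAk ?_
    rw [Submodule.span_singleton_le_iff_mem]
    exact hψx
  have h3 : A ⊔ Submodule.span ℝ {x} < A ⊔ Submodule.span ℝ {x} ⊔ Submodule.span ℝ {v j} := by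
    refine lt_of_le_of_ne le_sup_left fun h => hψj ?_
    have h4 : v j ∈ A ⊔ Submodule.span ℝ {x} := by
      rw [h]
      exact Submodule.mem_sup_right (Submodule.mem_span_singleton_self _)
    exact h2 h4
  have h4 : A ⊔ Submodule.span ℝ {x} ⊔ Submodule.span ℝ {v j} ≤ B := by
    refine sup_le (sup_le hAB ?_) ?_
    · rw [Submodule.span_singleton_le_iff_mem]; exact hx
    · rw [Submodule.span_singleton_le_iff_mem]
      exact Submodule.subset_span ⟨j, hj, rfl⟩
  have h5 : A ⊔ Submodule.span ℝ {x} ⊔ Submodule.span ℝ {v j} = B := by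
    refine Submodule.eq_of_le_of_finrank_le h4 ?_
    have h6 := Submodule.finrank_lt_finrank_of_lt h1
    have h7 := Submodule.finrank_lt_finrank_of_lt h3
    have h8 : Module.finrank ℝ ↥A = rk v (F : Set ι) := rfl
    have h9 : Module.finrank ℝ ↥B = rk v (G : Set ι) := rfl
    omega
  refine ⟨(φ (v j) - φ x / w x * w (v j)) / ψ (v j), φ x / w x, fun i hi => ?_⟩
  set β := φ x / w x with hβ
  set α := (φ (v j) - β * w (v j)) / ψ (v j) with hα
  have h6 : B ≤ LinearMap.ker (φ - α • ψ - β • w) := by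
    rw [← h5]
    refine sup_le (sup_le ?_ ?_) ?_
    · rw [hA, Submodule.span_le]
      rintro _ ⟨i, hi, rfl⟩
      show (φ - α • ψ - β • w) (v i) = 0
      simp only [LinearMap.sub_apply, LinearMap.smul_apply, smul_eq_mul]
      rw [hφ i hi, (hψF i).1 hi, hw i hi]
      ring
    · rw [Submodule.span_singleton_le_iff_mem]
      show (φ - α • ψ - β • w) x = 0
      simp only [LinearMap.sub_apply, LinearMap.smul_apply, smul_eq_mul]
      rw [hψx, hβ, div_mul_cancel₀ _ hwx]
      ring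
    · rw [Submodule.span_singleton_le_iff_mem]
      show (φ - α • ψ - β • w) (v j) = 0
      simp only [LinearMap.sub_apply, LinearMap.smul_apply, smul_eq_mul]
      rw [hα, div_mul_cancel₀ _ hψj]
      ring
  have h7 : (φ - α • ψ - β • w) (v i) = 0 := h6 (Submodule.subset_span ⟨i, hi, rfl⟩)
  simp only [LinearMap.sub_apply, LinearMap.smul_apply, smul_eq_mul] at h7
  linarith

end

theorem stmt_Between : Stmt_Between := by
  classical
  intro ι E _ _ _ _ v F G hF hG hFG hr
  -- a face above `F` in `G` of minimal rank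
  let A : Finset (Finset ι) := univ.filter fun H =>
    IsFace v H ∧ F ⊆ H ∧ H ⊆ G ∧ rk v (F : Set ι) < rk v (H : Set ι)
  have hGA : G ∈ A := Finset.mem_filter.2 ⟨Finset.mem_univ _, hG, hFG, Finset.Subset.refl _, hr⟩
  obtain ⟨H, hH, hmin⟩ := Finset.exists_min_image A (fun H => rk v (H : Set ι)) ⟨G, hGA⟩
  obtain ⟨-, hHf, hFH, hHG, hrH⟩ := Finset.mem_filter.1 hH
  refine ⟨H, hHf, hFH, hHG, ?_⟩
  by_contra hne
  obtain ⟨H', hH'f, h1, h2⟩ := exists_face_between hF hHf hFH (by omega)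
  have h3 := hF.rk_lt_of_ssubset h1
  have h4 := hH'f.rk_lt_of_ssubset h2
  have h5 := hmin H' (Finset.mem_filter.2 ⟨Finset.mem_univ _, hH'f, h1.1, h2.1.trans hHG, h3⟩)
  omega

theorem stmt_Diamond : Stmt_Diamond := by
  classical
  intro ι E _ _ _ _ v F G hF hG hFG hr
  obtain ⟨ψ, hψ, hψF⟩ := id hF
  obtain ⟨w, x, hx, hψx, hxA, hwx, hw⟩ := exists_transversal (ψ := ψ) hr.ge
  have hne : ∃ i ∈ G, i ∉ F := by
    by_contra hc
    push Not at hc
    have : F = G := Finset.Subset.antisymm hFG hc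
    rw [this] at hr
    omega
  obtain ⟨t, ht⟩ := exists_low hψ hψF hw hne
  have hw' : ∀ i ∈ F, (-w) (v i) = 0 := fun i hi => by
    rw [LinearMap.neg_apply, hw i hi, neg_zero]
  have hwx' : (-w) x ≠ 0 := by
    rw [LinearMap.neg_apply]
    exact neg_ne_zero.2 hwx
  obtain ⟨t', ht'⟩ := exists_low (w := -w) hψ hψF hw' hne
  have h1 := ht.ssubset hψF hw hFG (nonconst_of_transversal hx hψx hwx t)
  have h2 := ht'.ssubset hψF hw' hFG (nonconst_of_transversal hx hψx hwx' t')
  have hf1 := ht.isFace hG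
  have hf2 := ht'.isFace hG
  set H1 : Finset ι := G.filter fun i => w (v i) = t * ψ (v i) with hH1
  set H2 : Finset ι := G.filter fun i => (-w) (v i) = t' * ψ (v i) with hH2
  have hr1 : rk v (H1 : Set ι) = rk v (F : Set ι) + 1 := by
    have := hF.rk_lt_of_ssubset h1.1
    have := hf1.rk_lt_of_ssubset h1.2
    omega
  have hr2 : rk v (H2 : Set ι) = rk v (F : Set ι) + 1 := by
    have := hF.rk_lt_of_ssubset h2.1
    have := hf2.rk_lt_of_ssubset h2.2
    omega
  have hne12 : H1 ≠ H2 := by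
    intro he
    obtain ⟨i, hi, hiF, hi2⟩ := ht.2
    have hiH : i ∈ H2 := he ▸ Finset.mem_filter.2 ⟨hi, hi2⟩
    have hi3 := (Finset.mem_filter.1 hiH).2
    rw [LinearMap.neg_apply, hi2] at hi3
    have hψi : ψ (v i) ≠ 0 := fun h => hiF ((hψF i).2 h)
    have h3 : t' = -t := by
      have : (t' + t) * ψ (v i) = 0 := by linarith
      rcases mul_eq_zero.1 this with h | h
      · linarith
      · exact absurd h hψi
    obtain ⟨k, hk, hk2⟩ := nonconst_of_transversal hx hψx hwx t
    have h4 := ht.1 k hk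
    have h5 := ht'.1 k hk
    rw [h3, LinearMap.neg_apply] at h5
    apply hk2
    linarith
  have hset : (univ.filter fun H : Finset ι =>
      IsFace v H ∧ F ⊆ H ∧ H ⊆ G ∧ rk v (H : Set ι) = rk v (F : Set ι) + 1) = {H1, H2} := by
    ext H
    rw [Finset.mem_filter, Finset.mem_insert, Finset.mem_singleton]
    constructor
    · rintro ⟨-, hH, hFH, hHG, hrH⟩
      obtain ⟨φ, hφ, hφH⟩ := id hH
      have hneH : ∃ i ∈ H, i ∉ F := by
        by_contra hc
        push Not at hc
        have : F = H := Finset.Subset.antisymm hFH hc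
        rw [this] at hrH
        omega
      obtain ⟨α, β, hαβ⟩ := rep_of_transversal hFG hr hψF hw
        (fun i hi => (hφH i).1 (hFH hi)) hne hx hψx hxA hwx
      rcases lt_trichotomy β 0 with hβ | hβ | hβ
      · right
        refine ht'.eq_of_pos (α := α) (β := -β) hψ hψF hφ hφH hHG hneH (by linarith) ?_
        intro i hi
        rw [hαβ i hi, LinearMap.neg_apply]
        ring
      · exfalso
        obtain ⟨i, hi, hiF⟩ := hneH
        have hi1 := hαβ i (hHG hi)
        rw [(hφH i).1 hi, hβ, zero_mul, add_zero] at hi1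
        have hψi : ψ (v i) ≠ 0 := fun h => hiF ((hψF i).2 h)
        have hα : α = 0 := by
          rcases mul_eq_zero.1 hi1.symm with h | h
          · exact h
          · exact absurd h hψi
        have hGH : G ⊆ H := by
          intro k hk
          rw [hφH, hαβ k hk, hα, hβ]
          ring
        have : H = G := Finset.Subset.antisymm hHG hGH
        rw [this] at hrH
        omega
      · left
        exact ht.eq_of_pos (α := α) (β := β) hψ hψF hφ hφH hHG hneH hβ hαβ
    · rintro (rfl | rfl)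
      · exact ⟨Finset.mem_univ _, hf1, h1.1.1, h1.2.1, hr1⟩
      · exact ⟨Finset.mem_univ _, hf2, h2.1.1, h2.2.1, hr2⟩
  rw [hset, Finset.card_pair hne12]
  exact even_two

end Pool.Agent.TP
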