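import Mathlib
import Pool.Agent.Work.MP_c51d14_co.Basic
import Pool.Agent.Work.MP_c51d14_co_helper51.Diamond

/-!
# Blocks CXFACE and CXTUP (helper51)
-/

namespace Pool.Agent.TP

open Finset

theorem stmt_CxFace : Stmt_CxFace := by
  classical
  intro ι E _ _ _ _ v s hs hconv x hx z hz
  have h1 : ∀ y ∈ s, (fInc v).d x y * (fInc v).d y z
      = if (z ⊆ y ∧ y ⊆ x ∧ rk v (z : Set ι) + 1 = rk v (y : Set ι) ∧
          rk v (y : Set ι) + 1 = rk v (x : Set ι)) then (1 : ZMod 2) else 0 := by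
    intro y _
    by_cases ha : y ⊆ x ∧ rk v (y : Set ι) + 1 = rk v (x : Set ι)
    · by_cases hb : z ⊆ y ∧ rk v (z : Set ι) + 1 = rk v (y : Set ι)
      · rw [fInc_d_one ha.1 ha.2, fInc_d_one hb.1 hb.2, if_pos ⟨hb.1, ha.1, hb.2, ha.2⟩, one_mul]
      · have : (fInc v).d y z = 0 := by
          by_contra h
          exact hb (fInc_d.1 h)
        rw [this, mul_zero, if_neg fun h => hb ⟨h.1, h.2.2.1⟩]
    · have : (fInc v).d x y = 0 := by
        by_contra h
        exact ha (fInc_d.1 h)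
      rw [this, zero_mul, if_neg fun h => ha ⟨h.2.1, h.2.2.2⟩]
  rw [Finset.sum_congr rfl h1, Finset.sum_boole]
  by_cases hc : z ⊆ x ∧ rk v (x : Set ι) = rk v (z : Set ι) + 2
  · have h2 : (s.filter fun y => z ⊆ y ∧ y ⊆ x ∧ rk v (z : Set ι) + 1 = rk v (y : Set ι) ∧
          rk v (y : Set ι) + 1 = rk v (x : Set ι))
        = univ.filter fun H : Finset ι => IsFace v H ∧ z ⊆ H ∧ H ⊆ x ∧
            rk v (H : Set ι) = rk v (z : Set ι) + 1 := by
      ext y
      rw [Finset.mem_filter, Finset.mem_filter]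
      constructor
      · rintro ⟨hy, h3, h4, h5, h6⟩
        exact ⟨Finset.mem_univ _, hs y hy, h3, h4, h5.symm⟩
      · rintro ⟨-, hy, h3, h4, h5⟩
        exact ⟨hconv z hz x hx y hy h3 h4, h3, h4, h5.symm, by omega⟩
    rw [h2]
    have h3 := stmt_Diamond ι E v z x (hs z hz) (hs x hx) hc.1 hc.2
    obtain ⟨k, hk⟩ := h3
    have h4 : (univ.filter fun H : Finset ι => IsFace v H ∧ z ⊆ H ∧ H ⊆ x ∧
            rk v (H : Set ι) = rk v (z : Set ι) + 1).card = k + k := by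
      convert hk
    rw [h4]
    push_cast
    exact CharTwo.add_self_eq_zero _
  · have h2 : (s.filter fun y => z ⊆ y ∧ y ⊆ x ∧ rk v (z : Set ι) + 1 = rk v (y : Set ι) ∧
          rk v (y : Set ι) + 1 = rk v (x : Set ι)) = ∅ := by
      rw [Finset.filter_eq_empty_iff]
      rintro y _ ⟨h3, h4, h5, h6⟩
      exact hc ⟨h3.trans h4, by omega⟩
    rw [h2]
    simp

theorem stmt_CxTup (hpi : Stmt_CxPi) (hconv : Stmt_CxConv) : Stmt_CxTup := by
  classical
  intro ι E _ _ _ _ v s Z K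
  have h1 : (fInc v).IsCx (faces v) := stmt_CxFace ι E v (faces v)
    (fun F hF => (Finset.mem_filter.1 hF).2)
    (fun F _ G _ H hH _ _ => Finset.mem_filter.2 ⟨Finset.mem_univ _, hH⟩)
  refine hconv _ _ _ _ (hpi _ (fInc v) s (faces v) h1) ?_ ?_
  · intro F hF
    rw [Fintype.mem_piFinset]
    intro i
    exact Finset.mem_filter.2 ⟨Finset.mem_univ _, ((mem_Tup.1 hF).1 i).1⟩
  · intro x hx y hy z hz hxy hyz
    rw [Fintype.mem_piFinset] at hy
    have hle := fun i => pi_fInc_d_le hxy i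
    obtain ⟨hx1, hx2⟩ := mem_Tup.1 hx
    refine mem_Tup.2 ⟨fun i => ⟨(Finset.mem_filter.1 (hy i)).2, (hle i).trans (hx1 i).2.1,
      fun j hj => (hx1 i).2.2 j (hle i hj)⟩, fun i j hij => ?_⟩
    exact Finset.disjoint_of_subset_left (hle i)
      (Finset.disjoint_of_subset_right (hle j) (hx2 i j hij))

end Pool.Agent.TP
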