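import Mathlib
import Pool.Agent.Work.MP_c51d14_co.Interface

/-!
# Blocks FILT and TWO (helper51)
-/

namespace Pool.Agent.TP

open Finset

theorem sum_bd_eq_zero {X : Type} (A : Inc X) (s : Finset X) (hs : A.IsCx s) (b : X → ZMod 2)
    (z : X) (hz : z ∈ s) : ∑ y ∈ s, A.bd s b y * A.d y z = 0 := by
  unfold Inc.bd
  have h1 : ∀ y ∈ s, (∑ x ∈ s, b x * A.d x y) * A.d y z
      = ∑ x ∈ s, b x * (A.d x y * A.d y z) := by
    intro y _
    rw [Finset.sum_mul]
    exact Finset.sum_congr rfl fun x _ => by ring
  rw [Finset.sum_congr rfl h1, Finset.sum_comm]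
  refine Finset.sum_eq_zero fun x hx => ?_
  rw [← Finset.mul_sum, hs x hx z hz, mul_zero]

theorem stmt_Filt : Stmt_Filt := by
  classical
  intro X α _ A s f n
  induction s using Finset.strongInduction with
  | H s ih =>
    intro hcx hf hex
    rcases s.eq_empty_or_nonempty with hs | hs
    · subst hs
      intro c _ _
      exact ⟨0, by simp, by simp⟩
    · obtain ⟨x0, hx0, hmax⟩ : ∃ x0 ∈ s, ∀ x ∈ s, f x0 ≤ f x → f x = f x0 := by
        obtain ⟨x0, hx0⟩ := Finset.exists_maximalFor f s hs
        exact ⟨x0, hx0.1, fun x hx h => le_antisymm (hx0.2 hx h) h⟩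
      set a := f x0 with ha
      -- boundary facts
      have hQ : ∀ x ∈ s, ∀ y ∈ s, f y = a → A.d x y ≠ 0 → f x = a := by
        intro x hx y hy hya h
        exact hmax x hx (hya ▸ hf x hx y hy h)
      have hsub : s.filter (fun x => ¬ f x = a) ⊂ s := by
        refine ⟨Finset.filter_subset _ _, fun h => ?_⟩
        have := h hx0
        rw [Finset.mem_filter] at this
        exact this.2 ha.symm
      have hcx' : A.IsCx (s.filter fun x => ¬ f x = a) := by
        intro x hx z hz
        rw [Finset.mem_filter] at hx hz
        have h1 := hcx x hx.1 z hz.1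
        rw [← Finset.sum_filter_add_sum_filter_not s (fun x => f x = a)] at h1
        have h2 : ∑ y ∈ s.filter (fun x => f x = a), A.d x y * A.d y z = 0 := by
          refine Finset.sum_eq_zero fun y hy => ?_
          rw [Finset.mem_filter] at hy
          by_contra h
          have h3 : A.d x y ≠ 0 := left_ne_zero_of_mul h
          exact hx.2 (hQ x hx.1 y hy.1 hy.2 h3)
        rw [h2, zero_add] at h1
        exact h1
      have hex' : ∀ b, A.Exact ((s.filter fun x => ¬ f x = a).filter fun x => f x = b) n := by
        intro b
        by_cases hb : b = a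
        · have : ((s.filter fun x => ¬ f x = a).filter fun x => f x = b) = ∅ := by
            ext x
            simp [hb]
          rw [this]
          intro c _ _
          exact ⟨0, by simp, by simp⟩
        · have : ((s.filter fun x => ¬ f x = a).filter fun x => f x = b)
              = s.filter fun x => f x = b := by
            ext x
            simp only [Finset.mem_filter]
            constructor
            · rintro ⟨⟨h1, -⟩, h3⟩
              exact ⟨h1, h3⟩
            · rintro ⟨h1, h3⟩
              exact ⟨⟨h1, fun h => hb (h3 ▸ h)⟩, h3⟩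
          rw [this]
          exact hex b
      have hE := ih _ hsub hcx' (fun x hx y hy => hf x (Finset.mem_of_mem_filter _ hx) y
        (Finset.mem_of_mem_filter _ hy)) hex'
      intro c hc1 hc2
      -- the part on Q
      obtain ⟨b1, hb1, hb1'⟩ := hex a c (fun x hx => hc1 x (Finset.mem_of_mem_filter _ hx)) (by
        intro y hy
        have hy' := hy
        rw [Finset.mem_filter] at hy'
        rw [← hc2 y hy'.1]
        unfold Inc.bd
        rw [← Finset.sum_filter_add_sum_filter_not s (fun x => f x = a)]
        have : ∑ x ∈ s.filter (fun x => ¬ f x = a), c x * A.d x y = 0 := by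
          refine Finset.sum_eq_zero fun x hx => ?_
          rw [Finset.mem_filter] at hx
          by_contra h
          exact hx.2 (hQ x hx.1 y hy'.1 hy'.2 (right_ne_zero_of_mul h))
        rw [this, add_zero])
      set b1e : X → ZMod 2 := fun x => if f x = a then b1 x else 0 with hb1e
      have hbd1 : ∀ y, A.bd s b1e y = ∑ x ∈ s.filter (fun x => f x = a), b1 x * A.d x y := by
        intro y
        unfold Inc.bd
        rw [Finset.sum_filter]
        refine Finset.sum_congr rfl fun x _ => ?_
        rw [hb1e]
        by_cases h : f x = a <;> simp [h]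
      obtain ⟨b2, hb2, hb2'⟩ := hE (fun y => c y - A.bd s b1e y) (by
        intro y hy h
        rw [Finset.mem_filter] at hy
        by_cases h1 : c y = 0
        · have h2 : A.bd s b1e y ≠ 0 := by
            intro h3
            exact h (by rw [h1, h3, sub_zero])
          rw [hbd1] at h2
          obtain ⟨x, hx, hx2⟩ := Finset.exists_ne_zero_of_sum_ne_zero h2
          have h3 := hb1 x hx (left_ne_zero_of_mul hx2)
          have h4 := A.gr_d x y (right_ne_zero_of_mul hx2)
          omega
        · exact hc1 y hy.1 h1) (by
        intro z hz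
        rw [Finset.mem_filter] at hz
        have h1 : ∑ y ∈ s, (c y - A.bd s b1e y) * A.d y z = 0 := by
          have h2 : ∀ y ∈ s, (c y - A.bd s b1e y) * A.d y z
              = c y * A.d y z - A.bd s b1e y * A.d y z := fun y _ => by ring
          rw [Finset.sum_congr rfl h2, Finset.sum_sub_distrib, sum_bd_eq_zero A s hcx b1e z hz.1,
            sub_zero]
          exact hc2 z hz.1
        rw [← Finset.sum_filter_add_sum_filter_not s (fun x => f x = a)] at h1
        have h2 : ∑ y ∈ s.filter (fun x => f x = a), (c y - A.bd s b1e y) * A.d y z = 0 := by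
          refine Finset.sum_eq_zero fun y hy => ?_
          have h3 := hb1' y hy
          rw [hbd1, ← h3]
          unfold Inc.bd
          rw [sub_self, zero_mul]
        rw [h2, zero_add] at h1
        exact h1)
      refine ⟨fun x => if f x = a then b1 x else b2 x, ?_, ?_⟩
      · intro x hx h
        by_cases hxa : f x = a
        · simp only [hxa, if_true] at h
          exact hb1 x (Finset.mem_filter.2 ⟨hx, hxa⟩) h
        · simp only [hxa, if_false] at h
          exact hb2 x (Finset.mem_filter.2 ⟨hx, hxa⟩) h
      · intro y hy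
        have h1 : A.bd s (fun x => if f x = a then b1 x else b2 x) y
            = A.bd s b1e y + A.bd (s.filter fun x => ¬ f x = a) b2 y := by
          rw [hbd1]
          unfold Inc.bd
          rw [← Finset.sum_filter_add_sum_filter_not s (fun x => f x = a)]
          congr 1
          · refine Finset.sum_congr rfl fun x hx => ?_
            rw [Finset.mem_filter] at hx
            simp only [hx.2, if_true]
          · refine Finset.sum_congr rfl fun x hx => ?_
            rw [Finset.mem_filter] at hx
            simp only [hx.2, if_false]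
        rw [h1]
        by_cases hya : f y = a
        · have h2 : A.bd (s.filter fun x => ¬ f x = a) b2 y = 0 := by
            unfold Inc.bd
            refine Finset.sum_eq_zero fun x hx => ?_
            rw [Finset.mem_filter] at hx
            by_contra h
            exact hx.2 (hQ x hx.1 y hy hya (right_ne_zero_of_mul h))
          rw [h2, add_zero, hbd1]
          exact hb1' y (Finset.mem_filter.2 ⟨hy, hya⟩)
        · rw [hb2' y (Finset.mem_filter.2 ⟨hy, hya⟩)]
          ring

theorem stmt_Two : Stmt_Two := by
  classical
  intro X A s p n hcx hp hex hexq c hc1 hc2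
  have hP : ∀ x ∈ s, ∀ y ∈ s, p x → ¬ p y → A.d x y = 0 := by
    intro x hx y hy hpx hpy
    by_contra h
    exact hpy (hp x hx y hy hpx h)
  set c0 : X → ZMod 2 := fun x => if p x then c x else 0 with hc0
  have hbd0 : ∀ y, A.bd s c0 y = ∑ x ∈ s.filter p, c x * A.d x y := by
    intro y
    unfold Inc.bd
    rw [Finset.sum_filter]
    refine Finset.sum_congr rfl fun x _ => ?_
    rw [hc0]
    by_cases h : p x <;> simp [h]
  obtain ⟨b, hb, hb'⟩ := hex c0 (by
    intro x hx h
    have h1 : p x := by
      by_contra h1
      exact h (if_neg h1)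
    have h2 : c0 x = c x := if_pos h1
    exact hc1 x (Finset.mem_filter.2 ⟨hx, h1⟩) (h2 ▸ h)) (by
    intro y hy
    rw [hbd0]
    by_cases hpy : p y
    · exact hc2 y (Finset.mem_filter.2 ⟨hy, hpy⟩)
    · refine Finset.sum_eq_zero fun x hx => ?_
      rw [Finset.mem_filter] at hx
      rw [hP x hx.1 y hy hx.2 hpy, mul_zero])
  obtain ⟨e, he, he'⟩ := hexq b (fun x hx => hb x (Finset.mem_of_mem_filter _ hx)) (by
    intro y hy
    rw [Finset.mem_filter] at hy
    have h1 := hb' y hy.1
    rw [hc0] at h1
    simp only [hy.2, if_false] at h1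
    unfold Inc.bd at h1 ⊢
    rw [← Finset.sum_filter_add_sum_filter_not s p] at h1
    have h2 : ∑ x ∈ s.filter p, b x * A.d x y = 0 := by
      refine Finset.sum_eq_zero fun x hx => ?_
      rw [Finset.mem_filter] at hx
      rw [hP x hx.1 y hy.1 hx.2 hy.2, mul_zero]
    rw [h2, zero_add] at h1
    exact h1)
  set e0 : X → ZMod 2 := fun x => if p x then 0 else e x with he0
  have hbde : ∀ y, A.bd s e0 y = ∑ x ∈ s.filter (fun x => ¬ p x), e x * A.d x y := by
    intro y
    unfold Inc.bd
    rw [Finset.sum_filter]
    refine Finset.sum_congr rfl fun x _ => ?_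
    rw [he0]
    by_cases h : p x <;> simp [h]
  refine ⟨fun x => b x - A.bd s e0 x, ?_, ?_⟩
  · intro y hy h
    rw [Finset.mem_filter] at hy
    by_cases h1 : b y = 0
    · have h2 : A.bd s e0 y ≠ 0 := by
        intro h3
        exact h (by simp only [h1, h3, sub_zero])
      rw [hbde] at h2
      obtain ⟨x, hx, hx2⟩ := Finset.exists_ne_zero_of_sum_ne_zero h2
      have h3 := he x hx (left_ne_zero_of_mul hx2)
      have h4 := A.gr_d x y (right_ne_zero_of_mul hx2)
      omega
    · exact hb y hy.1 h1
  · intro y hy
    rw [Finset.mem_filter] at hy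
    have h1 : ∑ x ∈ s, (b x - A.bd s e0 x) * A.d x y = c y := by
      have h2 : ∀ x ∈ s, (b x - A.bd s e0 x) * A.d x y
          = b x * A.d x y - A.bd s e0 x * A.d x y := fun x _ => by ring
      rw [Finset.sum_congr rfl h2, Finset.sum_sub_distrib, sum_bd_eq_zero A s hcx e0 y hy.1,
        sub_zero]
      have h3 := hb' y hy.1
      rw [hc0] at h3
      simp only [hy.2, if_true] at h3
      exact h3
    rw [← h1, ← Finset.sum_filter_add_sum_filter_not s p]
    have h2 : ∑ x ∈ s.filter (fun x => ¬ p x), (b x - A.bd s e0 x) * A.d x y = 0 := by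
      refine Finset.sum_eq_zero fun x hx => ?_
      have h3 := he' x hx
      unfold Inc.bd at h3
      rw [hbde, h3, sub_self, zero_mul]
    rw [h2, add_zero]
    rfl

end Pool.Agent.TP
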