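import Mathlib
import Pool.Agent.Work.MP_c51d14_co.Basic2
import Pool.Agent.Work.MP_c51d14_co_helper51.Diamond

/-!
# Block TCYC (helper51)
-/

set_option linter.unusedSectionVars false

namespace Pool.Agent.TP

open Finset

namespace Sark

variable {ι E W : Type} [Fintype ι] [AddCommGroup E] [Module ℝ E] [FiniteDimensional ℝ E]
  [NormedAddCommGroup W] [InnerProductSpace ℝ W] [FiniteDimensional ℝ W] {r : ℕ}
  (D : Sark ι E W r)

theorem sub_of_rk_le {Z Z' : Finset (Fin r × ι)} (hZ' : IsFace D.c Z') (hc : Z ⊆ Z' ∨ Z' ⊆ Z)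
    (h : rk D.c (Z : Set (Fin r × ι)) ≤ rk D.c (Z' : Set (Fin r × ι))) : Z ⊆ Z' := by
  rcases hc with hc | hc
  · exact hc
  · rw [hZ'.eq_of_rk_le hc h]

theorem rk_c_lt_of_ne_univ {Z : Finset (Fin r × ι)} (hZ : IsFace D.c Z) (hne : Z ≠ univ) :
    rk D.c (Z : Set (Fin r × ι)) < Module.finrank ℝ W + Module.finrank ℝ E := by
  rw [← D.rk_c_univ]
  exact D.rk_c_lt hZ (Finset.ssubset_iff_subset_ne.2 ⟨Finset.subset_univ _, hne⟩)

open scoped Classical in
theorem even_flags (hP2 : Stmt_P2) {z' : Finset (Finset (Fin r × ι))} (hz' : z' ∈ D.CH)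
    (hcard : z'.card + 1 = Module.finrank ℝ W) :
    Even (D.CH.filter fun z => z.card = Module.finrank ℝ W ∧ z' ⊆ z).card := by
  obtain ⟨hN', hch'⟩ := D.mem_CH.1 hz'
  set e := Module.finrank ℝ E with he
  set n := Module.finrank ℝ W with hn
  let R : Finset (Fin r × ι) → ℕ := fun Z => rk D.c (Z : Set (Fin r × ι))
  have hface : ∀ Z ∈ D.N, IsFace D.c Z := fun Z hZ => (D.mem_N.1 hZ).1
  have hinj : ∀ z : Finset (Finset (Fin r × ι)), z ∈ D.CH → ∀ Z ∈ z, ∀ Z' ∈ z, R Z = R Z' →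
      Z = Z' := by
    intro z hz Z hZ Z' hZ' hR
    obtain ⟨h1, h2⟩ := D.mem_CH.1 hz
    exact Finset.Subset.antisymm
      (D.sub_of_rk_le (hface _ (h1 Z' hZ').1) (h2 Z hZ Z' hZ') hR.le)
      (D.sub_of_rk_le (hface _ (h1 Z hZ).1) (h2 Z' hZ' Z hZ) hR.ge)
  have hrange : ∀ Z ∈ D.N, Z ≠ univ → R Z ∈ Finset.Ico e (e + n) := by
    intro Z hZ hne
    rw [Finset.mem_Ico]
    refine ⟨D.finrank_le_rk_c hZ, ?_⟩
    have := D.rk_c_lt_of_ne_univ (hface Z hZ) hne
    show rk D.c (Z : Set (Fin r × ι)) < e + n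
    omega
  have himg : z'.image R ⊆ Finset.Ico e (e + n) := by
    intro k hk
    obtain ⟨Z, hZ, rfl⟩ := Finset.mem_image.1 hk
    exact hrange Z (hN' Z hZ).1 (hN' Z hZ).2
  have hcimg : (z'.image R).card = z'.card :=
    Finset.card_image_of_injOn fun Z hZ Z' hZ' h => hinj z' hz' Z hZ Z' hZ' h
  have hone : (Finset.Ico e (e + n) \ z'.image R).card = 1 := by
    rw [Finset.card_sdiff_of_subset himg, hcimg, Nat.card_Ico]
    omega
  obtain ⟨ρ, hρ⟩ := Finset.card_eq_one.1 hone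
  have hρ1 : ρ ∈ Finset.Ico e (e + n) ∧ ρ ∉ z'.image R := by
    have : ρ ∈ Finset.Ico e (e + n) \ z'.image R := by rw [hρ]; simp
    exact Finset.mem_sdiff.1 this
  have hρ2 : ∀ k ∈ Finset.Ico e (e + n), k ≠ ρ → ∃ Z ∈ z', R Z = k := by
    intro k hk hkρ
    by_contra hc
    have : k ∈ Finset.Ico e (e + n) \ z'.image R := by
      rw [Finset.mem_sdiff]
      refine ⟨hk, fun h => hc ?_⟩
      obtain ⟨Z, hZ, h⟩ := Finset.mem_image.1 h
      exact ⟨Z, hZ, h⟩
    rw [hρ, Finset.mem_singleton] at this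
    exact hkρ this
  have hρ3 := Finset.mem_Ico.1 hρ1.1
  -- the next member
  obtain ⟨Z2, hZ2N, hZ2r, hZ2c⟩ : ∃ Z2 ∈ D.N, R Z2 = ρ + 1 ∧
      ∀ Z' ∈ z', Z2 ⊆ Z' ∨ Z' ⊆ Z2 := by
    by_cases hlast : ρ + 1 = e + n
    · refine ⟨univ, D.univ_mem_N, ?_, fun Z' _ => Or.inr (Finset.subset_univ _)⟩
      show rk D.c ((univ : Finset (Fin r × ι)) : Set (Fin r × ι)) = ρ + 1
      rw [D.rk_c_univ]
      omega
    · obtain ⟨Z, hZ, hZr⟩ := hρ2 (ρ + 1) (Finset.mem_Ico.2 ⟨by omega, by omega⟩) (by omega)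
      exact ⟨Z, (hN' Z hZ).1, hZr, fun Z' hZ' => hch' Z hZ Z' hZ'⟩
  have hup : ∀ Z' ∈ z', ρ + 1 ≤ R Z' → Z2 ⊆ Z' := by
    intro Z' hZ' h
    exact D.sub_of_rk_le (hface _ (hN' Z' hZ').1) (hZ2c Z' hZ')
      (by show R Z2 ≤ R Z'; omega)
  -- reduction to the choice of the new member
  let S : Finset (Finset (Fin r × ι)) := D.N.filter fun Z =>
    Z ≠ univ ∧ R Z = ρ ∧ ∀ Z' ∈ z', Z ⊆ Z' ∨ Z' ⊆ Z
  have hSnot : ∀ Z ∈ S, Z ∉ z' := by
    intro Z hZ hZz
    exact hρ1.2 (Finset.mem_image.2 ⟨Z, hZz, (Finset.mem_filter.1 hZ).2.2.1⟩)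
  have hset : (D.CH.filter fun z => z.card = n ∧ z' ⊆ z) = S.image fun Z => insert Z z' := by
    ext z
    rw [Finset.mem_filter, Finset.mem_image]
    constructor
    · rintro ⟨hz, hzc, hzs⟩
      obtain ⟨h1, h2⟩ := D.mem_CH.1 hz
      have hd : (z \ z').card = 1 := by
        rw [Finset.card_sdiff_of_subset hzs]
        omega
      obtain ⟨Z, hZ⟩ := Finset.card_eq_one.1 hd
      have hZm : Z ∈ z ∧ Z ∉ z' := by
        have : Z ∈ z \ z' := by rw [hZ]; simp
        exact Finset.mem_sdiff.1 this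
      refine ⟨Z, Finset.mem_filter.2 ⟨(h1 Z hZm.1).1, (h1 Z hZm.1).2, ?_,
        fun Z' hZ' => h2 Z hZm.1 Z' (hzs hZ')⟩, ?_⟩
      · by_contra hne
        obtain ⟨Z', hZ', hR⟩ := hρ2 (R Z) (hrange Z (h1 Z hZm.1).1 (h1 Z hZm.1).2) hne
        exact hZm.2 (hinj z hz Z' (hzs hZ') Z hZm.1 hR ▸ hZ')
      · rw [Finset.insert_eq, ← hZ, Finset.sdiff_union_of_subset hzs]
    · rintro ⟨Z, hZ, rfl⟩
      obtain ⟨hZN, hZu, hZr, hZc⟩ := Finset.mem_filter.1 hZ
      refine ⟨D.mem_CH.2 ⟨?_, ?_⟩, ?_, Finset.subset_insert _ _⟩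
      · intro Z1 hZ1
        rcases Finset.mem_insert.1 hZ1 with rfl | hZ1
        · exact ⟨hZN, hZu⟩
        · exact hN' Z1 hZ1
      · intro Z1 hZ1 Z3 hZ3
        rcases Finset.mem_insert.1 hZ1 with h1 | hZ1
        · rcases Finset.mem_insert.1 hZ3 with h3 | hZ3
          · left; rw [h1, h3]
          · rw [h1]; exact hZc Z3 hZ3
        · rcases Finset.mem_insert.1 hZ3 with h3 | hZ3
          · rw [h3]; exact (hZc Z1 hZ1).symm
          · exact hch' Z1 hZ1 Z3 hZ3
      · rw [Finset.card_insert_of_notMem (hSnot Z hZ)]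
        exact hcard
  have hcS : (D.CH.filter fun z => z.card = n ∧ z' ⊆ z).card = S.card := by
    rw [hset]
    refine Finset.card_image_of_injOn fun Z hZ Z1 hZ1 h => ?_
    have h1 : Z ∈ insert Z1 z' := by
      have h2 : insert Z z' = insert Z1 z' := h
      rw [← h2]
      exact Finset.mem_insert_self _ _
    rcases Finset.mem_insert.1 h1 with h1 | h1
    · exact h1
    · exact absurd h1 (hSnot Z hZ)
  rw [hcS]
  by_cases hbot : ρ = e
  · -- the new member is the lowest one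
    have hS : S = D.N.filter fun Z => Z ⊆ Z2 ∧ rk D.c (Z : Set (Fin r × ι)) = e := by
      ext Z
      rw [Finset.mem_filter, Finset.mem_filter]
      constructor
      · rintro ⟨hZN, hZu, hZr, hZc⟩
        refine ⟨hZN, ?_, hbot ▸ hZr⟩
        by_cases hlast : ρ + 1 = e + n
        · -- Z2 = univ
          have : Z2 = univ := by
            refine (hface Z2 hZ2N).eq_of_rk_le (Finset.subset_univ _) ?_
            rw [D.rk_c_univ]
            have : rk D.c (Z2 : Set (Fin r × ι)) = ρ + 1 := hZ2r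
            omega
          rw [this]
          exact Finset.subset_univ _
        · obtain ⟨Z1, hZ1, hZ1r⟩ := hρ2 (ρ + 1) (Finset.mem_Ico.2 ⟨by omega, by omega⟩)
            (by omega)
          have h1 : Z1 ⊆ Z2 := D.sub_of_rk_le (hface Z2 hZ2N) (hZ2c Z1 hZ1).symm
            (by show R Z1 ≤ R Z2; omega)
          have h2 : Z ⊆ Z1 := D.sub_of_rk_le (hface Z1 (hN' Z1 hZ1).1) (hZc Z1 hZ1)
            (by show R Z ≤ R Z1; omega)
          exact h2.trans h1
      · rintro ⟨hZN, hZ2, hZr⟩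
        have hZr' : R Z = ρ := by rw [hbot]; exact hZr
        refine ⟨hZN, ?_, hZr', ?_⟩
        · rintro rfl
          have h1 := D.rk_c_univ
          omega
        · intro Z' hZ'
          left
          refine hZ2.trans (hup Z' hZ' ?_)
          have h1 := Finset.mem_Ico.1 (himg (Finset.mem_image_of_mem R hZ'))
          have h2 : R Z' ≠ ρ := fun h => hρ1.2 (Finset.mem_image.2 ⟨Z', hZ', h⟩)
          omega
    rw [hS]
    exact hP2 ι E W r D Z2 hZ2N (by show R Z2 = e + 1; omega)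
  · -- between two members
    obtain ⟨Z1, hZ1, hZ1r⟩ := hρ2 (ρ - 1) (Finset.mem_Ico.2 ⟨by omega, by omega⟩) (by omega)
    have hZ1N := (hN' Z1 hZ1).1
    have h12 : Z1 ⊆ Z2 := D.sub_of_rk_le (hface Z2 hZ2N) (hZ2c Z1 hZ1).symm
      (by show R Z1 ≤ R Z2; omega)
    have hdown : ∀ Z' ∈ z', R Z' ≤ ρ - 1 → Z' ⊆ Z1 := by
      intro Z' hZ' h
      exact D.sub_of_rk_le (hface Z1 hZ1N) (hch' Z' hZ' Z1 hZ1) (by show R Z' ≤ R Z1; omega)
    have hS : S = univ.filter fun H : Finset (Fin r × ι) =>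
        IsFace D.c H ∧ Z1 ⊆ H ∧ H ⊆ Z2 ∧
          rk D.c (H : Set (Fin r × ι)) = rk D.c (Z1 : Set (Fin r × ι)) + 1 := by
      ext Z
      rw [Finset.mem_filter, Finset.mem_filter]
      constructor
      · rintro ⟨hZN, hZu, hZr, hZc⟩
        refine ⟨Finset.mem_univ _, hface Z hZN, ?_, ?_, ?_⟩
        · exact D.sub_of_rk_le (hface Z hZN) (hZc Z1 hZ1).symm (by show R Z1 ≤ R Z; omega)
        · by_cases hlast : ρ + 1 = e + n
          · have : Z2 = univ := by
              refine (hface Z2 hZ2N).eq_of_rk_le (Finset.subset_univ _) ?_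
              rw [D.rk_c_univ]
              have : rk D.c (Z2 : Set (Fin r × ι)) = ρ + 1 := hZ2r
              omega
            rw [this]
            exact Finset.subset_univ _
          · obtain ⟨Z3, hZ3, hZ3r⟩ := hρ2 (ρ + 1) (Finset.mem_Ico.2 ⟨by omega, by omega⟩)
              (by omega)
            have h1 : Z3 ⊆ Z2 := D.sub_of_rk_le (hface Z2 hZ2N) (hZ2c Z3 hZ3).symm
              (by show R Z3 ≤ R Z2; omega)
            have h2 : Z ⊆ Z3 := D.sub_of_rk_le (hface Z3 (hN' Z3 hZ3).1) (hZc Z3 hZ3)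
              (by show R Z ≤ R Z3; omega)
            exact h2.trans h1
        · show R Z = R Z1 + 1
          omega
      · rintro ⟨-, hZf, h1, h2, hZr⟩
        have hZr' : R Z = ρ := by
          have : R Z = R Z1 + 1 := hZr
          omega
        refine ⟨D.mem_N_mono hZ1N hZf h1, ?_, hZr', ?_⟩
        · rintro rfl
          have h3 := D.rk_c_univ
          have h4 : rk D.c ((univ : Finset (Fin r × ι)) : Set (Fin r × ι)) = ρ := hZr'
          omega
        · intro Z' hZ'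
          have h3 : R Z' ≠ ρ := fun h => hρ1.2 (Finset.mem_image.2 ⟨Z', hZ', h⟩)
          rcases lt_or_gt_of_ne h3 with h4 | h4
          · right
            exact (hdown Z' hZ' (by omega)).trans h1
          · left
            exact h2.trans (hup Z' hZ' (by omega))
    rw [hS]
    have h3 : rk D.c (Z2 : Set (Fin r × ι)) = rk D.c (Z1 : Set (Fin r × ι)) + 2 := by
      show R Z2 = R Z1 + 2
      omega
    have h4 := stmt_Diamond (Fin r × ι) (W × E) D.c Z1 Z2 (hface Z1 hZ1N) (hface Z2 hZ2N) h12 h3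
    convert h4

end Sark

theorem stmt_TCyc (hP2 : Stmt_P2) : Stmt_TCyc := by
  classical
  intro ι E W _ _ _ _ _ _ _ r D y hy
  obtain ⟨hy1, hy2, -⟩ := D.mem_sT.1 hy
  unfold Inc.bd
  -- the terms
  have hterm : ∀ x ∈ D.sT, D.T x * D.TInc.d x y =
      if ((∀ i, y.2 i = ∅) ∧ y.1.card + 1 = Module.finrank ℝ W) ∧
        (x.2 = (fun _ => ∅) ∧ x.1.card = Module.finrank ℝ W ∧ y.1 ⊆ x.1) then 1 else 0 := by
    intro x _
    by_cases hT : x.1.card = Module.finrank ℝ W ∧ ∀ i, x.2 i = ∅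
    · have h1 : D.T x = 1 := if_pos hT
      have hx2 : x.2 = fun _ => ∅ := funext hT.2
      have h2 : D.TInc.d x y = (if x.2 = y.2 then
          (Inc.simp (Finset (Fin r × ι))).d x.1 y.1 else 0)
          + (if x.1 = y.1 then ((fInc D.v).pi r).d x.2 y.2 else 0) := by
        unfold Sark.TInc Inc.prod
        dsimp only
        congr
      have h3 : (if x.1 = y.1 then ((fInc D.v).pi r).d x.2 y.2 else 0) = 0 := by
        split_ifs with h
        · by_contra hd
          obtain ⟨i, -, hi⟩ := pi_d_ne _ hd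
          rw [fInc_d] at hi
          rw [hT.2 i] at hi
          have h4 : rk D.v ((∅ : Finset ι) : Set ι) = 0 := by
            rw [Finset.coe_empty, rk_empty]
          omega
        · rfl
      rw [h1, one_mul, h2, h3, add_zero]
      by_cases hxy : x.2 = y.2
      · rw [if_pos hxy]
        have hy2' : ∀ i, y.2 i = ∅ := fun i => by rw [← hxy, hx2]
        have hsd : (Inc.simp (Finset (Fin r × ι))).d x.1 y.1
            = if y.1 ⊆ x.1 ∧ y.1.card + 1 = x.1.card then (1 : ZMod 2) else 0 := by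
          unfold Inc.simp
          dsimp only
          congr
        rw [hsd]
        by_cases hs : y.1 ⊆ x.1 ∧ y.1.card + 1 = x.1.card
        · rw [if_pos hs, if_pos ⟨⟨hy2', by rw [hs.2, hT.1]⟩, hx2, hT.1, hs.1⟩]
        · rw [if_neg hs, if_neg]
          rintro ⟨⟨-, h5⟩, -, h6, h7⟩
          exact hs ⟨h7, by rw [h5, h6]⟩
      · rw [if_neg hxy, if_neg]
        rintro ⟨⟨h5, -⟩, h6, -⟩
        exact hxy (by rw [h6]; exact (funext h5).symm)
    · have h1 : D.T x = 0 := if_neg hT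
      rw [h1, zero_mul, if_neg]
      rintro ⟨-, h5, h6, -⟩
      exact hT ⟨h6, fun i => by rw [h5]⟩
  rw [Finset.sum_congr rfl hterm]
  by_cases hcase : (∀ i, y.2 i = ∅) ∧ y.1.card + 1 = Module.finrank ℝ W
  · have h1 : ∀ x ∈ D.sT, (if ((∀ i, y.2 i = ∅) ∧ y.1.card + 1 = Module.finrank ℝ W) ∧
        (x.2 = (fun _ => ∅) ∧ x.1.card = Module.finrank ℝ W ∧ y.1 ⊆ x.1) then (1 : ZMod 2) else 0)
        = if (x.2 = (fun _ => ∅) ∧ x.1.card = Module.finrank ℝ W ∧ y.1 ⊆ x.1) then 1 else 0 := by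
      intro x _
      by_cases h : (x.2 = (fun _ => ∅) ∧ x.1.card = Module.finrank ℝ W ∧ y.1 ⊆ x.1)
      · rw [if_pos h, if_pos ⟨hcase, h⟩]
      · rw [if_neg h, if_neg fun h' => h h'.2]
    rw [Finset.sum_congr rfl h1, Finset.sum_boole]
    have h2 : (D.sT.filter fun x => x.2 = (fun _ => ∅) ∧ x.1.card = Module.finrank ℝ W ∧
        y.1 ⊆ x.1).card
        = (D.CH.filter fun z => z.card = Module.finrank ℝ W ∧ y.1 ⊆ z).card := by
      refine Finset.card_bij (fun x _ => x.1) ?_ ?_ ?_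
      · intro x hx
        obtain ⟨hx1, hx2, hx3, hx4⟩ := Finset.mem_filter.1 hx
        exact Finset.mem_filter.2 ⟨(D.mem_sT.1 hx1).1, hx3, hx4⟩
      · intro x hx x' hx' h
        obtain ⟨-, hx2, -, -⟩ := Finset.mem_filter.1 hx
        obtain ⟨-, hx2', -, -⟩ := Finset.mem_filter.1 hx'
        exact Prod.ext h (by rw [hx2, hx2'])
      · intro z hz
        obtain ⟨hz1, hz2, hz3⟩ := Finset.mem_filter.1 hz
        refine ⟨(z, fun _ => ∅), Finset.mem_filter.2 ⟨D.mem_sT.2 ⟨hz1, D.empty_tup_mem, ?_⟩,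
          rfl, hz2, hz3⟩, rfl⟩
        intro Z _ i j hj
        exact absurd hj (by simp)
    rw [h2]
    obtain ⟨k, hk⟩ := D.even_flags hP2 hy1 hcase.2
    rw [hk]
    push_cast
    exact CharTwo.add_self_eq_zero _
  · refine Finset.sum_eq_zero fun x _ => ?_
    rw [if_neg fun h => hcase h.1]

end Pool.Agent.TP
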